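import Pool.Agent.H82.BK.Touch

/-!
# Unif: uniform positivity by compactness (about 130 lines)

* `per_cube`: reduction to the unit cube of ALL values at once: `k = -⌊x⌋` (integer vector), see `touch_per` in `BK/Touch.lean`
  (private there, copy).
* `unif_pos`: for `x₁` in the unit cube take `v₁` with `f0 x₁ v₁ > 0`; by continuity there is `r₁ ∈ (0,1]` with
  `f0 x₁ v₁ / 2 ≤ f0 y w` whenever `nsq (y - x₁) ≤ 4 r₁²` and `nsq (w - v₁) ≤ 4 r₁²`. For `x` with `nsq (x-x₁) ≤ r₁²` the same `v₁` works with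
  the radius `r₁`. Now `IsCompact.induction_on` (or a finite subcover) on the cube for the property
  `P(A) : ∃ c r V, 0 < c ∧ 0 < r ∧ r ≤ 1 ∧ 0 ≤ V ∧ ∀ x ∈ A, ∃ v₀, ...`; extend to all `x` by `per_cube`.
* `unif_pos_ball`: continuous and positive on the compact set cube × `{nsq w ≤ 1}`, periodic.
-/

set_option autoImplicit false

open MeasureTheory Set Filter Topology Pool.Agent.H25.Kin Pool.Agent.H82.BK
open scoped ENNReal

namespace Pool.Agent.H82.CL

variable {d : ℕ}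

private lemma Unif_norm_sq_le (z : Vec d) : ‖z‖ ^ 2 ≤ nsq z := by
  have h0 := sq_nonneg' z
  have h : ‖z‖ ≤ Real.sqrt (nsq z) := by
    rw [pi_norm_le_iff_of_nonneg (Real.sqrt_nonneg _)]
    intro i
    rw [Real.norm_eq_abs, ← Real.sqrt_sq_eq_abs]
    refine Real.sqrt_le_sqrt ?_
    exact Finset.single_le_sum (f := fun j => z j ^ 2) (fun j _ => sq_nonneg _)
      (Finset.mem_univ i)
  calc ‖z‖ ^ 2 ≤ Real.sqrt (nsq z) ^ 2 := pow_le_pow_left₀ (norm_nonneg _) h 2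
    _ = nsq z := Real.sq_sqrt h0

private lemma Unif_norm_le {z : Vec d} {r : ℝ} (hr : 0 ≤ r) (h : nsq z ≤ r ^ 2) : ‖z‖ ≤ r :=
  by
    by_contra hc
    push Not at hc
    have h1 := (Unif_norm_sq_le z).trans h
    nlinarith

theorem per_cube {f0 : Vec d → Vec d → ℝ} (hper : ∀ v, Per fun x => f0 x v) (x : Vec d) :
    ∃ k : Vec d, x + k ∈ Icc (0 : Vec d) 1 ∧ ∀ y v, f0 (y + k) v = f0 y v := by
  refine ⟨fun i => (-(⌊x i⌋ : ℤ) : ℝ), ⟨fun i => ?_, fun i => ?_⟩, fun y v => ?_⟩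
  · have := Int.fract_nonneg (x i)
    simp only [Pi.add_apply, Pi.zero_apply]
    unfold Int.fract at this
    linarith
  · have := (Int.fract_lt_one (x i)).le
    simp only [Pi.add_apply, Pi.one_apply]
    unfold Int.fract at this
    linarith
  · have hl : (fun i => (-(⌊x i⌋ : ℤ) : ℝ)) ∈
        Submodule.span ℤ (Set.range (Pi.basisFun ℝ (Fin d))) := by
      have e : (fun i => (-(⌊x i⌋ : ℤ) : ℝ)) = ∑ i, (-⌊x i⌋ : ℤ) • (Pi.basisFun ℝ (Fin d) i) := by
        funext j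
        rw [Finset.sum_apply]
        simp only [Pi.basisFun_apply, Pi.smul_apply, Pi.single_apply]
        rw [Finset.sum_eq_single j]
        · simp
        · intro b _ hb
          simp [Ne.symm hb]
        · intro h
          exact absurd (Finset.mem_univ _) h
      rw [e]
      exact Submodule.sum_mem _ fun i _ => Submodule.smul_mem _ _
        (Submodule.subset_span (Set.mem_range_self i))
    have h := (hper v).span hl y
    rw [add_comm] at h
    exact h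

theorem unif_pos {f0 : Vec d → Vec d → ℝ} (hc : Continuous fun p : Vec d × Vec d => f0 p.1 p.2)
    (hper : ∀ v, Per fun x => f0 x v) (h : ∀ x, ∃ v, 0 < f0 x v) :
    ∃ c r V : ℝ, 0 < c ∧ 0 < r ∧ r ≤ 1 ∧ 0 ≤ V ∧ ∀ x, ∃ v₀, nsq v₀ ≤ V ^ 2 ∧
      ∀ y w, nsq (y - x) + nsq (w - v₀) ≤ r ^ 2 → c ≤ f0 y w := by
  have hcomp : IsCompact (Icc (0 : Vec d) 1) := isCompact_Icc
  have key : ∃ c r V : ℝ, 0 < c ∧ 0 < r ∧ r ≤ 1 ∧ 0 ≤ V ∧ ∀ x ∈ Icc (0 : Vec d) 1,
      ∃ v₀, nsq v₀ ≤ V ^ 2 ∧ ∀ y w, nsq (y - x) + nsq (w - v₀) ≤ r ^ 2 → c ≤ f0 y w := by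
    refine hcomp.induction_on (p := fun A : Set (Vec d) => ∃ c r V : ℝ, 0 < c ∧ 0 < r ∧ r ≤ 1 ∧
      0 ≤ V ∧ ∀ x ∈ A, ∃ v₀, nsq v₀ ≤ V ^ 2 ∧
        ∀ y w, nsq (y - x) + nsq (w - v₀) ≤ r ^ 2 → c ≤ f0 y w) ?_ ?_ ?_ ?_
    · exact ⟨1, 1, 0, one_pos, one_pos, le_rfl, le_rfl, fun x hx => absurd hx (notMem_empty x)⟩
    · rintro s t hst ⟨c, r, V, h1, h2, h3, h4, h5⟩
      exact ⟨c, r, V, h1, h2, h3, h4, fun x hx => h5 x (hst hx)⟩
    · rintro s t ⟨c, r, V, h1, h2, h3, h4, h5⟩ ⟨c', r', V', h1', h2', h3', h4', h5'⟩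
      refine ⟨min c c', min r r', max V V', lt_min h1 h1', lt_min h2 h2',
        (min_le_left _ _).trans h3, h4.trans (le_max_left _ _), ?_⟩
      have hr0 : 0 ≤ min r r' := (lt_min h2 h2').le
      rintro x (hx | hx)
      · obtain ⟨v₀, h6, h7⟩ := h5 x hx
        refine ⟨v₀, h6.trans (pow_le_pow_left₀ h4 (le_max_left _ _) 2), fun y w hyw => ?_⟩
        exact (min_le_left _ _).trans (h7 y w (hyw.trans (pow_le_pow_left₀ hr0 (min_le_left _ _) 2)))
      · obtain ⟨v₀, h6, h7⟩ := h5' x hx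
        refine ⟨v₀, h6.trans (pow_le_pow_left₀ h4' (le_max_right _ _) 2), fun y w hyw => ?_⟩
        exact (min_le_right _ _).trans
          (h7 y w (hyw.trans (pow_le_pow_left₀ hr0 (min_le_right _ _) 2)))
    · intro x₁ _
      obtain ⟨v₁, hv₁⟩ := h x₁
      have hev : ∀ᶠ p : Vec d × Vec d in 𝓝 (x₁, v₁), f0 x₁ v₁ / 2 < f0 p.1 p.2 :=
        (hc.tendsto (x₁, v₁)).eventually_const_lt (by simpa using half_lt_self hv₁)
      obtain ⟨δ, hδ, hδ1⟩ := Metric.eventually_nhds_iff.1 hev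
      refine ⟨Metric.ball x₁ (δ / 4), mem_nhdsWithin_of_mem_nhds (Metric.ball_mem_nhds _ (by positivity)),
        f0 x₁ v₁ / 2, min 1 (δ / 4), 1 + nsq v₁, by positivity, lt_min one_pos (by positivity),
        min_le_left _ _, by have := sq_nonneg' v₁; linarith, fun x hx => ⟨v₁, ?_, ?_⟩⟩
      · have := sq_nonneg' v₁
        nlinarith
      · intro y w hyw
        have hr0 : (0 : ℝ) ≤ min 1 (δ / 4) := (lt_min one_pos (by positivity)).le
        have h8 := sq_nonneg' (y - x)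
        have h9 := sq_nonneg' (w - v₁)
        have h10 : ‖y - x‖ ≤ min 1 (δ / 4) := Unif_norm_le hr0 (by linarith)
        have h11 : ‖w - v₁‖ ≤ min 1 (δ / 4) := Unif_norm_le hr0 (by linarith)
        have h12 := min_le_right 1 (δ / 4)
        have h13 : dist x x₁ < δ / 4 := hx
        refine (hδ1 (y := (y, w)) ?_).le
        rw [Prod.dist_eq]
        refine max_lt ?_ ?_
        · have h14 : dist y x₁ ≤ dist y x + dist x x₁ := dist_triangle _ _ _
          rw [dist_eq_norm y x] at h14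
          simp only
          linarith
        · simp only
          rw [dist_eq_norm]
          linarith
  obtain ⟨c, r, V, h1, h2, h3, h4, h5⟩ := key
  refine ⟨c, r, V, h1, h2, h3, h4, fun x => ?_⟩
  obtain ⟨k, hk, hk1⟩ := per_cube hper x
  obtain ⟨v₀, h6, h7⟩ := h5 (x + k) hk
  refine ⟨v₀, h6, fun y w hyw => ?_⟩
  rw [← hk1 y w]
  refine h7 (y + k) w ?_
  have e : y + k - (x + k) = y - x := by abel
  rw [e]
  exact hyw

theorem unif_pos_ball {f0 : Vec d → Vec d → ℝ} (hc : Continuous fun p : Vec d × Vec d => f0 p.1 p.2)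
    (hper : ∀ v, Per fun x => f0 x v) (h : ∀ x v, 0 < f0 x v) :
    ∃ c : ℝ, 0 < c ∧ ∀ x v, nsq v ≤ 1 → c ≤ f0 x v := by
  have hnq : Continuous (nsq : Vec d → ℝ) := by unfold nsq; fun_prop
  have hB : IsCompact {w : Vec d | nsq w ≤ 1} := by
    refine (isCompact_closedBall (0 : Vec d) 1).of_isClosed_subset
      (isClosed_le hnq continuous_const) fun w hw => ?_
    rw [Metric.mem_closedBall, dist_zero_right]
    exact Unif_norm_le zero_le_one (by simpa using hw)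
  have hK : IsCompact (Icc (0 : Vec d) 1 ×ˢ {w : Vec d | nsq w ≤ 1}) := isCompact_Icc.prod hB
  have hne : (Icc (0 : Vec d) 1 ×ˢ {w : Vec d | nsq w ≤ 1}).Nonempty := by
    refine ⟨(0, 0), ⟨⟨le_rfl, zero_le_one⟩, ?_⟩⟩
    simp [nsq]
  obtain ⟨p, hp, hmin⟩ := hK.exists_isMinOn hne hc.continuousOn
  refine ⟨f0 p.1 p.2, h _ _, fun x v hv => ?_⟩
  obtain ⟨k, hk, hk1⟩ := per_cube hper x
  rw [← hk1 x v]
  exact hmin (show (x + k, v) ∈ _ from ⟨hk, hv⟩)

end Pool.Agent.H82.CL
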