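import Pool.Agent.H82.CM.Fast
import Pool.Agent.H82.CM.RealG
import Pool.Agent.H82.CL.AvgL

/-!
# LowQ: lower bound of the operator at a point where `g` has a bounded second difference from below
-/

set_option autoImplicit false

open MeasureTheory Set Filter Topology Pool.Agent.H25.Kin Pool.Agent.H82.BK Pool.Agent.H82.CM
open scoped ENNReal

namespace Pool.Agent.H82.CL

variable {d : ℕ}

/-- the angular integral of the second order remainder -/
private lemma lowQ_ang {γ s : ℝ} {b : ℝ → ℝ} {C Ca : ℝ} (H : Hyp d γ s b C Ca) {c : ℝ}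
    (hc : 0 ≤ c) {m : Vec d} (hm : m ≠ 0) {ε : ℝ} (hε : 0 < ε) :
    ∫⁻ σ in {σ : Vec d | 0 < dot m σ}, ENNReal.ofReal (Kn d γ (bt b ε) (co m σ)) *
        ENNReal.ofReal (c * min (nsq m * ((1 - co m σ ^ 2) / co m σ ^ 2)) 1) ∂(surf d) ≤
      ENNReal.ofReal (4 * ((2 ^ (d - 1) * 4 * (2 * C)) * Ca) * c * len m ^ (2 * s)) := by
  have hC0 : 0 ≤ C := H.bd.1
  have hCa0 : 0 ≤ Ca := H.an.1
  have hs := H.hs
  have hs1 := H.hs1
  have hl := len_pos hm
  have hR : 0 < 2 * len m := by positivity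
  have h1 := fast_kint H hm ε hR
  set A := (2 ^ (d - 1) * 4 * (2 * C)) * Ca with hA
  have hA0 : 0 ≤ A := by positivity
  calc ∫⁻ σ in {σ : Vec d | 0 < dot m σ}, ENNReal.ofReal (Kn d γ (bt b ε) (co m σ)) *
        ENNReal.ofReal (c * min (nsq m * ((1 - co m σ ^ 2) / co m σ ^ 2)) 1) ∂(surf d)
      ≤ ∫⁻ σ in {σ : Vec d | 0 < dot m σ}, ENNReal.ofReal c * ENNReal.ofReal
          (Kn d γ (bt b ε) (co m σ) * min ((2 * len m) ^ 2 * (1 - co m σ)) 1) ∂(surf d) := by
        refine lintegral_mono_ae ?_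
        filter_upwards [ae_restrict_of_ae surf_ae, ae_restrict_mem (measurableSet_half m)]
          with σ hσ hmσ
        have hK0 := fast_Kn0 (γ := γ) H.bd hε hσ hmσ
        have hc0 := co_pos hmσ
        have hc1 := co_le_one (m := m) hσ
        rw [← ENNReal.ofReal_mul hK0, ← ENNReal.ofReal_mul hc]
        refine ENNReal.ofReal_le_ofReal ?_
        rcases lt_or_ge (2 * co m σ ^ 2 - 1) 0 with h2 | h2
        · have : Kn d γ (bt b ε) (co m σ) = 0 := by
            unfold Kn; rw [bt_neg h2, mul_zero]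
          rw [this, zero_mul, zero_mul, mul_zero]
        · have h3 : (1 - co m σ ^ 2) / co m σ ^ 2 ≤ 4 * (1 - co m σ) := by
            rw [div_le_iff₀ (by positivity)]
            nlinarith
          have h4 : nsq m * ((1 - co m σ ^ 2) / co m σ ^ 2) ≤
              (2 * len m) ^ 2 * (1 - co m σ) := by
            have h5 := mul_le_mul_of_nonneg_left h3 (sq_nonneg' m)
            have h6 : (2 * len m) ^ 2 = 4 * nsq m := by rw [mul_pow, len_sq]; norm_num
            rw [h6]
            linarith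
          have h7 : min (nsq m * ((1 - co m σ ^ 2) / co m σ ^ 2)) 1 ≤
              min ((2 * len m) ^ 2 * (1 - co m σ)) 1 := min_le_min_right _ h4
          calc Kn d γ (bt b ε) (co m σ) *
                (c * min (nsq m * ((1 - co m σ ^ 2) / co m σ ^ 2)) 1)
              ≤ Kn d γ (bt b ε) (co m σ) * (c * min ((2 * len m) ^ 2 * (1 - co m σ)) 1) := by
                gcongr
            _ = _ := by ring
    _ = ENNReal.ofReal c * ∫⁻ σ in {σ : Vec d | 0 < dot m σ}, ENNReal.ofReal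
          (Kn d γ (bt b ε) (co m σ) * min ((2 * len m) ^ 2 * (1 - co m σ)) 1) ∂(surf d) := by
        rw [lintegral_const_mul' _ _ ENNReal.ofReal_ne_top]
    _ ≤ ENNReal.ofReal c * ENNReal.ofReal (A * (2 * len m) ^ (2 * s)) := mul_le_mul_right h1 _
    _ ≤ _ := by
        rw [← ENNReal.ofReal_mul hc]
        refine ENNReal.ofReal_le_ofReal ?_
        have h8 : (2 * len m) ^ (2 * s) ≤ 4 * len m ^ (2 * s) := by
          rw [Real.mul_rpow (by norm_num) hl.le]
          refine mul_le_mul_of_nonneg_right ?_ (Real.rpow_nonneg hl.le _)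
          calc (2 : ℝ) ^ (2 * s) ≤ 2 ^ (2 : ℝ) :=
                Real.rpow_le_rpow_of_exponent_le (by norm_num) (by linarith)
            _ = 4 := by norm_num
        calc c * (A * (2 * len m) ^ (2 * s)) ≤ c * (A * (4 * len m ^ (2 * s))) := by gcongr
          _ = 4 * A * c * len m ^ (2 * s) := by ring

/-- loss at most gain plus remainder, at fixed `m` -/
private lemma lowQ_pt {γ s : ℝ} {b : ℝ → ℝ} {C Ca : ℝ} (H : Hyp d γ s b C Ca)
    {g : Vec d → ℝ} (hgm : Measurable g) (hg0 : ∀ u, 0 ≤ g u) {v : Vec d} {c : ℝ} (hc : 0 ≤ c)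
    (hgc : g v ≤ c) (hsec : ∀ h, 2 * g v - 2 * c * nsq h ≤ g (v + h) + g (v - h)) {m : Vec d}
    (hm : m ≠ 0) {ε : ℝ} (hε : 0 < ε) :
    ENNReal.ofReal (g v) * BB b ε (dir m) ≤
      (∫⁻ σ in {σ : Vec d | 0 < dot m σ},
        ENNReal.ofReal (Kn d γ (bt b ε) (co m σ) * g (v + hh σ m)) ∂(surf d)) +
      ENNReal.ofReal (4 * ((2 ^ (d - 1) * 4 * (2 * C)) * Ca) * c * len m ^ (2 * s)) := by
  have hgv := hg0 v
  have hd2 : (2 : ℝ) ≤ d := by exact_mod_cast H.hd
  have he : 0 ≤ (d : ℝ) + γ := by have := H.g1; linarith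
  let K : ℝ → ℝ≥0∞ := fun c' => ENNReal.ofReal (Kn d γ (bt b ε) c')
  let G : Vec d → ℝ≥0∞ := fun h => ENNReal.ofReal (g (v + h))
  let RR : ℝ → ℝ≥0∞ := fun c' => ENNReal.ofReal (c * min (nsq m * ((1 - c' ^ 2) / c' ^ 2)) 1)
  have hbt := measurable_bt (b := b) H.bm ε
  have hKm' : Measurable (Kn d γ (bt b ε)) := by
    unfold Kn
    have h1 : Measurable fun c : ℝ => c ^ (-2 - γ) := measurable_id.pow_const _
    have h2 : Measurable fun c : ℝ => bt b ε (2 * c ^ 2 - 1) := hbt.comp (by fun_prop)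
    exact (measurable_const.mul h1).mul h2
  have hKm : Measurable K := hKm'.ennreal_ofReal
  have hGm : Measurable G := (hgm.comp (measurable_const.add measurable_id)).ennreal_ofReal
  have hRm : Measurable RR := by
    have h1 : Measurable fun c' : ℝ => nsq m * ((1 - c' ^ 2) / c' ^ 2) :=
      measurable_const.mul ((measurable_const.sub (measurable_id.pow_const 2)).div
        (measurable_id.pow_const 2))
    exact (measurable_const.mul (h1.min measurable_const)).ennreal_ofReal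
  have hpt : ∀ σ : Vec d, nsq σ = 1 → 0 < dot m σ →
      2 * ENNReal.ofReal (g v) ≤ G (hh σ m) + G (-(hh σ m)) + 2 * RR (co m σ) := by
    intro σ hσ hmσ
    have hX := nsq_hh hσ hmσ
    have hX0 : 0 ≤ nsq (hh σ m) := sq_nonneg' _
    have h2 : ∀ x : ℝ, (2 : ℝ≥0∞) * ENNReal.ofReal x = ENNReal.ofReal (2 * x) := fun x => by
      rw [ENNReal.ofReal_mul (p := 2) (by norm_num)]
      simp
    simp only [G, RR]
    rw [← hX, h2, h2, ← ENNReal.ofReal_add (hg0 _) (hg0 _), ← ENNReal.ofReal_add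
      (add_nonneg (hg0 _) (hg0 _)) (by positivity)]
    refine ENNReal.ofReal_le_ofReal ?_
    rcases le_total (nsq (hh σ m)) 1 with h | h
    · rw [min_eq_left h]
      have h3 := hsec (hh σ m)
      rw [sub_eq_add_neg v] at h3
      linarith
    · rw [min_eq_right h]
      have := hg0 (v + hh σ m)
      have := hg0 (v + -(hh σ m))
      linarith
  have hav := refl_avg_low (R₁ := fun _ => ENNReal.ofReal (g v)) H.hd1 hm hKm hGm
    measurable_const hRm hpt
  have e1 : ENNReal.ofReal (g v) * BB b ε (dir m) ≤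
      ∫⁻ σ in {σ : Vec d | 0 < dot m σ}, K (co m σ) * ENNReal.ofReal (g v) ∂(surf d) := by
    rw [← BB_eq H.hd γ H.bm ε hm, ← lintegral_const_mul' _ _ ENNReal.ofReal_ne_top]
    refine lintegral_mono_ae ?_
    filter_upwards [ae_restrict_of_ae surf_ae, ae_restrict_mem (measurableSet_half m)]
      with σ hσ hmσ
    have hK0 := fast_Kn0 (γ := γ) H.bd hε hσ hmσ
    have hc0 := co_pos hmσ
    have hc1 := co_le_one (m := m) hσ
    rw [mul_comm]
    refine mul_le_mul_left (ENNReal.ofReal_le_ofReal ?_) _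
    have h1 : co m σ ^ ((d : ℝ) + γ) ≤ 1 := Real.rpow_le_one hc0.le hc1 he
    nlinarith
  refine e1.trans (hav.trans (add_le_add (le_of_eq ?_) (lowQ_ang H hc hm hε)))
  refine lintegral_congr fun σ => ?_
  simp only [K, G]
  rw [ENNReal.ofReal_mul' (hg0 _)]

theorem low_Q {γ s : ℝ} {b : ℝ → ℝ} {C Ca : ℝ} (H : Hyp d γ s b C Ca) :
    ∃ K : ℝ, 0 ≤ K ∧ ∀ g : Vec d → ℝ, Nice g → (∀ u, 0 ≤ g u) → ∀ v : Vec d, ∀ c : ℝ, 0 ≤ c →
      g v ≤ c → (∀ h, 2 * g v - 2 * c * nsq h ≤ g (v + h) + g (v - h)) →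
      -(K * c * ∫ z, g z * len (v - z) ^ (γ + 2 * s)) ≤ boltzQ γ b g v := by
  have hC0 : 0 ≤ C := H.bd.1
  have hCa0 : 0 ≤ Ca := H.an.1
  set K : ℝ := 4 * ((2 ^ (d - 1) * 4 * (2 * C)) * Ca) with hK
  have hK0 : 0 ≤ K := by positivity
  refine ⟨K, hK0, fun g hg hg0 v c hc hgc hsec => ?_⟩
  have hint : Integrable fun z : Vec d => g z * len (v - z) ^ (γ + 2 * s) :=
    freq_integrable H.hd (by have := H.h0; linarith) H.h2 hg v
  have hnn : ∀ z, 0 ≤ g z * len (v - z) ^ (γ + 2 * s) := fun z =>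
    mul_nonneg (hg0 z) (Real.rpow_nonneg (len_nonneg _) _)
  have hI : 0 ≤ ∫ z, g z * len (v - z) ^ (γ + 2 * s) := integral_nonneg hnn
  refine ge_of_tendsto (boltz_tendsto H hg v) ?_
  filter_upwards [self_mem_nhdsWithin] with ε hε
  have hε0 : 0 < ε := hε
  refine cut_geg H hg hg0 hε0 v (mul_nonneg (mul_nonneg hK0 hc) hI) ?_
  have mg := hg.cont.measurable
  set E : Vec d → ℝ≥0∞ := fun z => ENNReal.ofReal (K * c * (g z * len (v - z) ^ (γ + 2 * s)))
    with hE
  have hEm : Measurable E := by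
    have hlm : Measurable fun z : Vec d => len (v - z) ^ (γ + 2 * s) :=
      (continuous_len.comp (continuous_const.sub continuous_id)).measurable.pow_const _
    exact ((mg.mul hlm).const_mul _).ennreal_ofReal
  have e1 : ENNReal.ofReal (K * c * ∫ z, g z * len (v - z) ^ (γ + 2 * s)) =
      ∫⁻ m, E (v - m) := by
    rw [lintegral_sub_left_eq_self E v, hE, ← integral_const_mul,
      ofReal_integral_eq_lintegral_ofReal (hint.const_mul _)]
    exact Eventually.of_forall fun z => mul_nonneg (mul_nonneg hK0 hc) (hnn z)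
  have hEm' : Measurable fun m : Vec d => E (v - m) :=
    hEm.comp (measurable_const.sub measurable_id)
  rw [e1, loss_eq H.hd γ H.bm H.bd hε0 mg hg0 v, gain_eq H.hd γ H.bm H.bd hε0 mg hg0 v,
    ← lintegral_add_right _ hEm']
  refine lintegral_mono_ae ?_
  filter_upwards [ae_ne H.hd1 (0 : Vec d)] with m hm
  have hm0 : m ≠ 0 := hm.symm
  have hl := len_pos hm0
  have hlγ : 0 ≤ len m ^ γ := Real.rpow_nonneg (len_nonneg m) γ
  have hW : 0 ≤ len m ^ γ * g (v - m) := mul_nonneg hlγ (hg0 _)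
  have h1 := lowQ_pt H mg hg0 hc hgc hsec hm0 hε0
  have h2 : E (v - m) = ENNReal.ofReal (len m ^ γ * g (v - m)) *
      ENNReal.ofReal (K * c * len m ^ (2 * s)) := by
    rw [hE, ← ENNReal.ofReal_mul hW]
    simp only [sub_sub_cancel]
    congr 1
    rw [Real.rpow_add hl]
    ring
  rw [h2, ← mul_add]
  exact mul_le_mul_right h1 _

end Pool.Agent.H82.CL
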