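import Pool.Agent.H82.BK.Touch

/-!
# Bar: a local barrier from below (about 150 lines)

`f ≥ c` on the ball `|x-x₀|² + |v-v₀|² ≤ r²` at time `t₀`. Let
`φ(t,x,v) = c (1 - |v-v₀|²/r² - |x-x₀-(t-t₀)v|²/r² - Λ (t-t₀))`. Claim `φ ≤ f` on `[t₀,t₁]`.

Proof. Enough: for every `η > 0`, `φ - η < f` on `[t₀,t₁]` (then `η → 0`). Suppose not. The set
`S = {(t,x,v) : t ∈ [t₀,t₁], f t x v ≤ φ(t,x,v) - η}` is nonempty; on `S` we have `φ ≥ η > 0` (as `f ≥ 0`), so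
`nsq (v-v₀) ≤ r²` and `nsq (x-x₀-(t-t₀)•v) ≤ r²`: bounded; `S` is compact (`hf.isCont`, `φ` is continuous), take a point
`(t*,x*,v*)` of `S` with the smallest time (`IsCompact.exists_isMinOn`, see `BK/Touch.lean`, `first_touch`).
`t* > t₀`: at `t₀`, if `φ(t₀,x,v) > 0` then `nsq (x-x₀) + nsq (v-v₀) ≤ r²` so `f ≥ c ≥ φ > φ - η`. For `t ∈ [t₀,t*)`:
`f > φ - η` everywhere, so by continuity in `t` at fixed `x, v`: `f ≥ φ - η` at time `t*` everywhere (as in `first_touch`), with equality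
at `(x*,v*)`. Hence at `(t*,x*,v*)`: `f ≤ c`, and
`f(v*+h) + f(v*-h) ≥ φ(v*+h) + φ(v*-h) - 2η = 2φ(v*) - 2η - 2c|h|²/r² - 2c(t*-t₀)²|h|²/r² ≥ 2f(v*) - 2(2c/r²)|h|²` as
`t*-t₀ ≤ 1` (`nsq_add`, `nsq_sub`, `nsq_smul` in the library, or unfold `nsq` and use sums). So `hQ` applies: `-(cΛ) < Q t* x* v*`.
But `char_deriv` (BK/Touch.lean) gives the derivative `Q t* x* v*` of `f` along the characteristic, and for small `τ > 0`,
`f(t*-τ, x*-τv*, v*) > φ(t*-τ, x*-τv*, v*) - η = f(t*,x*,v*) + cΛτ` (`x-x₀-(t-t₀)v` is constant on the characteristic), so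
`Q t* x* v* ≤ -cΛ` (compare `mp_deriv_nonpos` in `BK/MaxPr.lean`): contradiction.
-/

set_option autoImplicit false

open MeasureTheory Set Filter Topology Pool.Agent.H25.Kin Pool.Agent.H82.BK
open scoped ENNReal

namespace Pool.Agent.H82.CL

variable {d : ℕ}

private lemma bar_norm_le {z : Vec d} {r : ℝ} (hr : 0 ≤ r) (h : nsq z ≤ r ^ 2) : ‖z‖ ≤ r := by
  refine (pi_norm_le_iff_of_nonneg hr).2 fun i => ?_
  rw [Real.norm_eq_abs]
  refine abs_le_of_sq_le_sq ?_ hr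
  refine le_trans ?_ h
  unfold nsq
  exact Finset.single_le_sum (f := fun i => z i ^ 2) (fun i _ => sq_nonneg (z i)) (Finset.mem_univ i)

private lemma bar_nsq_nonneg (z : Vec d) : 0 ≤ nsq z := Finset.sum_nonneg fun i _ => sq_nonneg _

/-- the barrier -/
private noncomputable def bar (c r Λ t₀ : ℝ) (x₀ v₀ : Vec d) (t : ℝ) (x v : Vec d) : ℝ :=
  c * (1 - nsq (v - v₀) / r ^ 2 - nsq (x - x₀ - (t - t₀) • v) / r ^ 2 - Λ * (t - t₀))

private lemma bar_char (c r Λ t₀ : ℝ) (x₀ v₀ : Vec d) (t : ℝ) (x v : Vec d) (τ : ℝ) :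
    bar c r Λ t₀ x₀ v₀ (t + -τ) (x + (-τ) • v) v = bar c r Λ t₀ x₀ v₀ t x v + c * Λ * τ := by
  unfold bar
  have e : x + (-τ) • v - x₀ - (t + -τ - t₀) • v = x - x₀ - (t - t₀) • v := by
    ext i
    simp only [Pi.add_apply, Pi.sub_apply, Pi.smul_apply, smul_eq_mul]
    ring
  rw [e]
  ring

private lemma bar_second {c r Λ t₀ : ℝ} (hc : 0 < c) (hr : 0 < r) (x₀ v₀ : Vec d) {t : ℝ}
    (h0 : t₀ ≤ t) (h1 : t ≤ t₀ + 1) (x v h : Vec d) :
    2 * bar c r Λ t₀ x₀ v₀ t x v - 2 * (2 * c / r ^ 2) * nsq h ≤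
      bar c r Λ t₀ x₀ v₀ t x (v + h) + bar c r Λ t₀ x₀ v₀ t x (v - h) := by
  unfold bar
  have e1 : nsq (v + h - v₀) + nsq (v - h - v₀) = 2 * (nsq (v - v₀) + nsq h) := by
    have := nsq_par (v - v₀) h
    rw [show v + h - v₀ = v - v₀ + h by abel, show v - h - v₀ = v - v₀ - h by abel]
    exact this
  have e2 : nsq (x - x₀ - (t - t₀) • (v + h)) + nsq (x - x₀ - (t - t₀) • (v - h)) =
      2 * (nsq (x - x₀ - (t - t₀) • v) + (t - t₀) ^ 2 * nsq h) := by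
    have := nsq_par (x - x₀ - (t - t₀) • v) ((t - t₀) • h)
    rw [nsq_smul] at this
    rw [show x - x₀ - (t - t₀) • (v + h) = x - x₀ - (t - t₀) • v - (t - t₀) • h by
      rw [smul_add]; abel, show x - x₀ - (t - t₀) • (v - h) = x - x₀ - (t - t₀) • v + (t - t₀) • h by
      rw [smul_sub]; abel, add_comm]
    exact this
  have h2 : (t - t₀) ^ 2 ≤ 1 := by nlinarith
  have h3 : 0 ≤ nsq h := bar_nsq_nonneg h
  have h4 : 0 < r ^ 2 := by positivity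
  have h5 : (t - t₀) ^ 2 * nsq h ≤ nsq h := by nlinarith
  have h6 : (t - t₀) ^ 2 * nsq h / r ^ 2 ≤ nsq h / r ^ 2 := by gcongr
  have e3 : c * (1 - nsq (v + h - v₀) / r ^ 2 - nsq (x - x₀ - (t - t₀) • (v + h)) / r ^ 2 -
        Λ * (t - t₀)) +
      c * (1 - nsq (v - h - v₀) / r ^ 2 - nsq (x - x₀ - (t - t₀) • (v - h)) / r ^ 2 -
        Λ * (t - t₀)) =
      c * (2 - (nsq (v + h - v₀) + nsq (v - h - v₀)) / r ^ 2 -
        (nsq (x - x₀ - (t - t₀) • (v + h)) + nsq (x - x₀ - (t - t₀) • (v - h))) / r ^ 2 -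
        2 * (Λ * (t - t₀))) := by ring
  rw [e3, e1, e2]
  have e4 : c * (2 - 2 * (nsq (v - v₀) + nsq h) / r ^ 2 -
        2 * (nsq (x - x₀ - (t - t₀) • v) + (t - t₀) ^ 2 * nsq h) / r ^ 2 -
        2 * (Λ * (t - t₀))) =
      2 * (c * (1 - nsq (v - v₀) / r ^ 2 - nsq (x - x₀ - (t - t₀) • v) / r ^ 2 -
        Λ * (t - t₀))) - 2 * c * (nsq h / r ^ 2) - 2 * c * ((t - t₀) ^ 2 * nsq h / r ^ 2) := by ring
  rw [e4]
  have h7 := mul_le_mul_of_nonneg_left h6 (show (0 : ℝ) ≤ 2 * c by linarith)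
  have e5 : 2 * (2 * c / r ^ 2) * nsq h = 2 * c * (nsq h / r ^ 2) + 2 * c * (nsq h / r ^ 2) := by ring
  linarith

private lemma bar_pos {c r Λ t₀ : ℝ} (hc : 0 < c) (hr : 0 < r) (hΛ : 0 ≤ Λ) (x₀ v₀ : Vec d) {t : ℝ}
    (h0 : t₀ ≤ t) (x v : Vec d) (h : 0 < bar c r Λ t₀ x₀ v₀ t x v) :
    nsq (v - v₀) + nsq (x - x₀ - (t - t₀) • v) ≤ r ^ 2 := by
  unfold bar at h
  have h1 := (mul_pos_iff_of_pos_left hc).1 h
  have h2 : 0 ≤ Λ * (t - t₀) := mul_nonneg hΛ (by linarith)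
  have h4 : 0 < r ^ 2 := by positivity
  have h3 : (nsq (v - v₀) + nsq (x - x₀ - (t - t₀) • v)) / r ^ 2 ≤ 1 := by
    rw [add_div]
    linarith
  rwa [div_le_one h4] at h3

private lemma bar_le {c r Λ t₀ : ℝ} (hc : 0 < c) (hΛ : 0 ≤ Λ) (x₀ v₀ : Vec d) {t : ℝ}
    (h0 : t₀ ≤ t) (x v : Vec d) : bar c r Λ t₀ x₀ v₀ t x v ≤ c := by
  unfold bar
  have h2 : 0 ≤ Λ * (t - t₀) := mul_nonneg hΛ (by linarith)
  have h3 : 0 ≤ nsq (v - v₀) / r ^ 2 := div_nonneg (bar_nsq_nonneg _) (sq_nonneg _)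
  have h5 : 0 ≤ nsq (x - x₀ - (t - t₀) • v) / r ^ 2 := div_nonneg (bar_nsq_nonneg _) (sq_nonneg _)
  have h6 : 1 - nsq (v - v₀) / r ^ 2 - nsq (x - x₀ - (t - t₀) • v) / r ^ 2 - Λ * (t - t₀) ≤ 1 := by
    linarith
  calc _ ≤ c * 1 := mul_le_mul_of_nonneg_left h6 hc.le
    _ = c := mul_one c

private lemma bar_cont (c r Λ t₀ : ℝ) (x₀ v₀ : Vec d) :
    Continuous fun q : ℝ × Vec d × Vec d => bar c r Λ t₀ x₀ v₀ q.1 q.2.1 q.2.2 := by
  have hnq : Continuous (nsq : Vec d → ℝ) := by unfold nsq; fun_prop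
  unfold bar
  have h1 : Continuous fun q : ℝ × Vec d × Vec d => nsq (q.2.2 - v₀) :=
    hnq.comp (by fun_prop)
  have h2 : Continuous fun q : ℝ × Vec d × Vec d => nsq (q.2.1 - x₀ - (q.1 - t₀) • q.2.2) :=
    hnq.comp (by fun_prop)
  exact continuous_const.mul (((continuous_const.sub (h1.div_const _)).sub (h2.div_const _)).sub
    (by fun_prop))

private lemma bar_deriv_nonneg {g : ℝ → ℝ} {g' : ℝ} (hg : HasDerivAt g g' 0)
    (h : ∀ᶠ τ in 𝓝[>] (0 : ℝ), g 0 ≤ g τ) : 0 ≤ g' := by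
  have h1 := hg.tendsto_slope_zero_right
  refine ge_of_tendsto h1 ?_
  filter_upwards [h, self_mem_nhdsWithin] with τ h2 h3
  have h3' : 0 < τ := h3
  rw [zero_add, smul_eq_mul]
  exact mul_nonneg (inv_nonneg.2 h3'.le) (by linarith)

private lemma bar_strict {T : ℝ} {Q f : ℝ → Vec d → Vec d → ℝ} (hf : IsClassicalSol T Q f) {t₀ t₁ : ℝ}
    (h0 : 0 ≤ t₀) (h2 : t₁ < T) (h3 : t₁ ≤ t₀ + 1) {c r Λ : ℝ} (hc : 0 < c)
    (hr : 0 < r) (hΛ : 0 ≤ Λ) {x₀ v₀ : Vec d}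
    (hinit : ∀ x v, nsq (x - x₀) + nsq (v - v₀) ≤ r ^ 2 → c ≤ f t₀ x v)
    (hQ : ∀ t ∈ Ioc t₀ t₁, ∀ x v, nsq (v - v₀) ≤ r ^ 2 → f t x v ≤ c →
      (∀ h, 2 * f t x v - 2 * (2 * c / r ^ 2) * nsq h ≤ f t x (v + h) + f t x (v - h)) →
      -(c * Λ) < Q t x v) {η : ℝ} (hη : 0 < η) :
    ∀ t ∈ Icc t₀ t₁, ∀ x v, bar c r Λ t₀ x₀ v₀ t x v - η < f t x v := by
  by_contra hcon
  push Not at hcon
  obtain ⟨t', ht', x', v', hbad⟩ := hcon
  set R₂ : ℝ := ‖v₀‖ + r with hR₂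
  set R₁ : ℝ := ‖x₀‖ + R₂ + r with hR₁
  have hsub : Icc t₀ t₁ ⊆ Ico 0 T := fun t ht => ⟨h0.trans ht.1, ht.2.trans_lt h2⟩
  have hbd : ∀ t ∈ Icc t₀ t₁, ∀ x v, f t x v ≤ bar c r Λ t₀ x₀ v₀ t x v - η →
      nsq (v - v₀) + nsq (x - x₀ - (t - t₀) • v) ≤ r ^ 2 := by
    intro t ht x v h
    refine bar_pos hc hr hΛ x₀ v₀ ht.1 x v ?_
    have := hf.nonneg t (hsub ht) x v
    linarith
  have hbd2 : ∀ t ∈ Icc t₀ t₁, ∀ x v, f t x v ≤ bar c r Λ t₀ x₀ v₀ t x v - η →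
      ‖x‖ ≤ R₁ ∧ ‖v‖ ≤ R₂ := by
    intro t ht x v h
    have h4 := hbd t ht x v h
    have h5 : ‖v - v₀‖ ≤ r := bar_norm_le hr.le (by linarith [bar_nsq_nonneg (x - x₀ - (t - t₀) • v)])
    have h6 : ‖x - x₀ - (t - t₀) • v‖ ≤ r := bar_norm_le hr.le (by linarith [bar_nsq_nonneg (v - v₀)])
    have h7 : ‖v‖ ≤ R₂ := by
      have := norm_add_le v₀ (v - v₀)
      rw [add_sub_cancel] at this
      linarith
    refine ⟨?_, h7⟩
    have h8 : x = x₀ + ((t - t₀) • v + (x - x₀ - (t - t₀) • v)) := by abel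
    have h9 : ‖(t - t₀) • v‖ ≤ R₂ := by
      rw [norm_smul, Real.norm_eq_abs, abs_of_nonneg (by linarith [ht.1])]
      have h10 : t - t₀ ≤ 1 := by linarith [ht.2]
      have h11 : 0 ≤ t - t₀ := by linarith [ht.1]
      nlinarith [norm_nonneg v]
    rw [h8]
    refine (norm_add_le _ _).trans ?_
    have := norm_add_le ((t - t₀) • v) (x - x₀ - (t - t₀) • v)
    linarith
  set K : Set (ℝ × Vec d × Vec d) :=
    Icc t₀ t₁ ×ˢ (Metric.closedBall (0 : Vec d) R₁ ×ˢ Metric.closedBall (0 : Vec d) R₂) with hK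
  have hKc : IsCompact K := isCompact_Icc.prod ((isCompact_closedBall _ _).prod (isCompact_closedBall _ _))
  have hGc : ContinuousOn (fun q : ℝ × Vec d × Vec d =>
      unc f q - bar c r Λ t₀ x₀ v₀ q.1 q.2.1 q.2.2) K := by
    refine ContinuousOn.sub ?_ (bar_cont c r Λ t₀ x₀ v₀).continuousOn
    exact (show ContinuousOn (unc f) (Ico 0 T ×ˢ univ) from hf.isCont).mono
      fun q hq => ⟨hsub hq.1, mem_univ _⟩
  set S : Set (ℝ × Vec d × Vec d) :=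
    K ∩ (fun q : ℝ × Vec d × Vec d => unc f q - bar c r Λ t₀ x₀ v₀ q.1 q.2.1 q.2.2) ⁻¹' Iic (-η) with hS
  have hSc : IsCompact S := hKc.of_isClosed_subset
    (hGc.preimage_isClosed_of_isClosed hKc.isClosed isClosed_Iic) inter_subset_left
  have hmem : ∀ t ∈ Icc t₀ t₁, ∀ x v, f t x v ≤ bar c r Λ t₀ x₀ v₀ t x v - η → (t, x, v) ∈ S := by
    intro t ht x v h
    obtain ⟨h4, h5⟩ := hbd2 t ht x v h
    refine ⟨⟨ht, ?_, ?_⟩, ?_⟩
    · rw [Metric.mem_closedBall, dist_zero_right]; exact h4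
    · rw [Metric.mem_closedBall, dist_zero_right]; exact h5
    · simp only [mem_preimage, mem_Iic, unc]
      linarith
  obtain ⟨q, hqS, hq⟩ := hSc.exists_isMinOn ⟨_, hmem t' ht' x' v' hbad⟩
    (f := fun q : ℝ × Vec d × Vec d => q.1) continuous_fst.continuousOn
  obtain ⟨t, x, v⟩ := q
  have ht : t ∈ Icc t₀ t₁ := hqS.1.1
  have hge : f t x v ≤ bar c r Λ t₀ x₀ v₀ t x v - η := by
    have := hqS.2
    simp only [mem_preimage, mem_Iic, unc] at this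
    linarith
  have hlt : ∀ u ∈ Ico t₀ t, ∀ y w, bar c r Λ t₀ x₀ v₀ u y w - η < f u y w := by
    intro u hu y w
    by_contra hcon
    push Not at hcon
    have h4 : t ≤ u := hq (hmem u ⟨hu.1, hu.2.le.trans ht.2⟩ y w hcon)
    exact absurd hu.2 (not_lt.2 h4)
  have hpos : t₀ < t := by
    rcases ht.1.lt_or_eq with h | h
    · exact h
    · exfalso
      subst h
      have h4 := hbd t₀ ht x v hge
      rw [sub_self, zero_smul, sub_zero] at h4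
      have h5 := hinit x v (by linarith)
      have h6 := bar_le (r := r) hc hΛ x₀ v₀ (le_refl t₀) x v
      linarith
  have hle : ∀ y w, bar c r Λ t₀ x₀ v₀ t y w - η ≤ f t y w := by
    intro y w
    have hc1 : ContinuousOn (fun t : ℝ => f t y w) (Icc t₀ t₁) := by
      have h4 : ContinuousOn (fun t : ℝ => unc f (t, y, w)) (Icc t₀ t₁) := by
        refine ContinuousOn.comp (show ContinuousOn (unc f) (Ico 0 T ×ˢ univ) from hf.isCont)
          (Continuous.continuousOn (by fun_prop)) fun t ht => ⟨hsub ht, mem_univ _⟩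
      exact h4
    have hc2 : Continuous (fun t : ℝ => bar c r Λ t₀ x₀ v₀ t y w - η) :=
      ((bar_cont c r Λ t₀ x₀ v₀).comp (show Continuous fun t : ℝ => (t, y, w) by fun_prop)).sub
        continuous_const
    have hne : (𝓝[Ico t₀ t] t).NeBot := by
      rw [← mem_closure_iff_nhdsWithin_neBot, closure_Ico hpos.ne]
      exact ⟨hpos.le, le_rfl⟩
    have hs : Ico t₀ t ⊆ Icc t₀ t₁ := fun u hu => ⟨hu.1, hu.2.le.trans ht.2⟩
    refine le_of_tendsto_of_tendsto (hc2.continuousWithinAt (s := Ico t₀ t) (x := t)) ((hc1 t ht).mono hs) ?_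
    filter_upwards [self_mem_nhdsWithin] with u hu
    exact (hlt u hu y w).le
  have heq : f t x v = bar c r Λ t₀ x₀ v₀ t x v - η := le_antisymm hge (hle x v)
  have hv : nsq (v - v₀) ≤ r ^ 2 := by
    have := hbd t ht x v hge
    linarith [bar_nsq_nonneg (x - x₀ - (t - t₀) • v)]
  have hfc : f t x v ≤ c := by
    have := bar_le (r := r) hc hΛ x₀ v₀ ht.1 x v
    linarith
  have hQ1 := hQ t ⟨hpos, ht.2⟩ x v hv hfc (fun h => by
    have h4 := bar_second (Λ := Λ) hc hr x₀ v₀ ht.1 (ht.2.trans h3) x v h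
    have h5 := hle x (v + h)
    have h6 := hle x (v - h)
    rw [heq]
    linarith)
  have htT : t ∈ Ioo 0 T := ⟨h0.trans_lt hpos, ht.2.trans_lt h2⟩
  have hd := char_deriv hf htT x v
  have hneg : HasDerivAt (fun τ : ℝ => f (t + -τ) (x + (-τ) • v) v) (-(Q t x v)) 0 := by
    have hn : HasDerivAt (fun τ : ℝ => -τ) (-1) 0 := hasDerivAt_neg' (0 : ℝ)
    have hd' : HasDerivAt (fun τ : ℝ => f (t + τ) (x + τ • v) v) (Q t x v) (-(0 : ℝ)) := by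
      simpa using hd
    have := hd'.comp (0 : ℝ) hn
    simpa [Function.comp_def] using this
  have hlin : HasDerivAt (fun τ : ℝ => c * Λ * τ) (c * Λ) 0 := by
    simpa using (hasDerivAt_id (0 : ℝ)).const_mul (c * Λ)
  have hg := hneg.sub hlin
  have hkey := bar_deriv_nonneg hg (by
    filter_upwards [Ioo_mem_nhdsGT (sub_pos.2 hpos)] with τ h4
    have h5 := hlt (t + -τ) ⟨by linarith [h4.2], by linarith [h4.1]⟩ (x + (-τ) • v) v
    rw [bar_char] at h5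
    simp only [Pi.sub_apply, neg_zero, add_zero, zero_smul, mul_zero, sub_zero]
    rw [heq]
    linarith)
  linarith

theorem local_lower {T : ℝ} {Q f : ℝ → Vec d → Vec d → ℝ} (hf : IsClassicalSol T Q f) {t₀ t₁ : ℝ}
    (h0 : 0 ≤ t₀) (h1 : t₀ ≤ t₁) (h2 : t₁ < T) (h3 : t₁ ≤ t₀ + 1) {c r Λ : ℝ} (hc : 0 < c)
    (hr : 0 < r) (hΛ : 0 ≤ Λ) {x₀ v₀ : Vec d}
    (hinit : ∀ x v, nsq (x - x₀) + nsq (v - v₀) ≤ r ^ 2 → c ≤ f t₀ x v)
    (hQ : ∀ t ∈ Ioc t₀ t₁, ∀ x v, nsq (v - v₀) ≤ r ^ 2 → f t x v ≤ c →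
      (∀ h, 2 * f t x v - 2 * (2 * c / r ^ 2) * nsq h ≤ f t x (v + h) + f t x (v - h)) →
      -(c * Λ) < Q t x v) :
    ∀ t ∈ Icc t₀ t₁, ∀ x v,
      c * (1 - nsq (v - v₀) / r ^ 2 - nsq (x - x₀ - (t - t₀) • v) / r ^ 2 - Λ * (t - t₀)) ≤
        f t x v := by
  intro t ht x v
  refine le_of_forall_pos_lt_add fun η hη => ?_
  have := bar_strict hf h0 h2 h3 hc hr hΛ hinit hQ hη t ht x v
  unfold bar at this
  linarith

end Pool.Agent.H82.CL
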