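import Pool.Agent.H82.CM.Shell
import Pool.Agent.H82.BK.Geo

/-!
# Orth: a nonnegative function without orthogonal positive pairs at its zeros is positive or zero (about 90 lines)

Proof. Suppose `g a > 0` and `Z = {g = 0}` is not empty; `Z` is closed. Take `z ∈ Z` minimising `nsq (z - a)` (minimum of a
continuous function on the compact set `Z ∩ {nsq (· - a) ≤ nsq (z₁ - a)}`, `z₁ ∈ Z`). `R² = nsq (a - z) > 0`. Every `y` with
`nsq (y - a) < R²` has `g y > 0`. Let `u = a - z`, `τ` a vector with `dot u τ = 0`, `nsq τ = nsq u` (`exists_perp` in CM/Shell.lean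
gives a unit vector orthogonal to `u`, multiply by `len u`). `p = (1/4)•(u + τ)`, `q = (1/2)•(u - τ)`: `dot p q = (1/8)(nsq u - nsq τ) = 0`,
`nsq p = R²/8 < nsq q = R²/2`, `nsq (z + p - a) = nsq (-(3/4)u + (1/4)τ) = (10/16) R² < R²`,
`nsq (z + q - a) = nsq (-(1/2)u - (1/2)τ) = R²/2 < R²`. So `g (z+p) > 0`, `g (z+q) > 0`: contradiction with `h`.
-/

set_option autoImplicit false

open MeasureTheory Set Filter Topology Pool.Agent.H25.Kin Pool.Agent.H82.BK
open scoped ENNReal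

namespace Pool.Agent.H82.CL

variable {d : ℕ}

theorem all_pos_of_orth (hd : 2 ≤ d) {g : Vec d → ℝ} (hg : Continuous g) (hg0 : ∀ u, 0 ≤ g u)
    (h : ∀ v p q : Vec d, g v = 0 → dot p q = 0 → 0 < nsq p → nsq p < nsq q → 0 < g (v + p) →
      0 < g (v + q) → False)
    (hne : ∃ u, 0 < g u) : ∀ u, 0 < g u := by
  obtain ⟨a, ha⟩ := hne
  by_contra hcon
  push Not at hcon
  obtain ⟨z₁, hz₁⟩ := hcon
  have hz₁' : g z₁ = 0 := le_antisymm hz₁ (hg0 z₁)
  -- the nearest zero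
  have hcs : Continuous fun y : Vec d => nsq (y - a) :=
    continuous_sq.comp (continuous_id.sub continuous_const)
  have hKc : IsCompact ({y : Vec d | g y = 0} ∩ {y | nsq (y - a) ≤ nsq (z₁ - a)}) := by
    refine Metric.isCompact_of_isClosed_isBounded
      ((isClosed_eq hg continuous_const).inter (isClosed_le hcs continuous_const)) ?_
    refine (Metric.isBounded_closedBall (x := a) (r := nsq (z₁ - a) + 1)).subset ?_
    rintro y ⟨-, hy⟩
    rw [Metric.mem_closedBall, dist_eq_norm]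
    have h1 := norm_sq_le_sq (y - a)
    have h2 : nsq (y - a) ≤ nsq (z₁ - a) := hy
    nlinarith [norm_nonneg (y - a), sq_nonneg (‖y - a‖ - 1)]
  have hself : z₁ ∈ {y : Vec d | nsq (y - a) ≤ nsq (z₁ - a)} :=
    (le_refl (nsq (z₁ - a)) : nsq (z₁ - a) ≤ nsq (z₁ - a))
  obtain ⟨z, ⟨hz0, -⟩, hzmin⟩ := hKc.exists_isMinOn ⟨z₁, hz₁', hself⟩ hcs.continuousOn
  have hz0' : g z = 0 := hz0
  have hmin : ∀ y, g y = 0 → nsq (z - a) ≤ nsq (y - a) := by
    intro y hy
    by_cases h1 : nsq (y - a) ≤ nsq (z₁ - a)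
    · exact hzmin ⟨hy, h1⟩
    · have h2 : nsq (z - a) ≤ nsq (z₁ - a) := hzmin ⟨hz₁', hself⟩
      linarith
  have hpos : ∀ y, nsq (y - a) < nsq (z - a) → 0 < g y := by
    intro y hy
    rcases (hg0 y).lt_or_eq with h1 | h1
    · exact h1
    · exact absurd (hmin y h1.symm) (not_le.2 hy)
  obtain ⟨u, hu⟩ : ∃ u : Vec d, u = a - z := ⟨_, rfl⟩
  have hu0 : u ≠ 0 := by
    intro h0
    have h1 : a = z := by
      rw [hu] at h0
      exact sub_eq_zero.1 h0
    rw [h1, hz0'] at ha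
    exact lt_irrefl _ ha
  have hl : 0 < len u := len_pos hu0
  have hnu : 0 < nsq u := sq_pos_of_ne hu0
  have hnza : nsq (z - a) = nsq u := by
    have h1 : z - a = (-1 : ℝ) • u := by rw [hu]; simp
    rw [h1, nsq_smul]; ring
  obtain ⟨e, he, hke⟩ := Pool.Agent.H82.CM.exists_perp hd (k := (len u)⁻¹ • u) (by
    rw [nsq_smul, ← len_sq u, inv_pow]
    exact inv_mul_cancel₀ (by positivity))
  obtain ⟨τ, hτ⟩ : ∃ τ : Vec d, τ = len u • e := ⟨_, rfl⟩
  have hnτ : nsq τ = nsq u := by rw [hτ, nsq_smul, he, len_sq, mul_one]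
  have huτ : dot u τ = 0 := by
    rw [smul_dot] at hke
    have h1 : dot u e = 0 := (mul_eq_zero.1 hke).resolve_left (inv_ne_zero hl.ne')
    rw [hτ, dot_smul, h1, mul_zero]
  have hτu : dot τ u = 0 := by rw [dot_comm]; exact huτ
  have hadd : ∀ x y w : Vec d, dot (x + y) w = dot x w + dot y w := by
    intro x y w
    rw [dot_comm, dot_add, dot_comm w x, dot_comm w y]
  refine h z ((1 / 4 : ℝ) • (u + τ)) ((1 / 2 : ℝ) • (u - τ)) hz0' ?_ ?_ ?_ ?_ ?_
  · rw [smul_dot, dot_smul, hadd, dot_sub, dot_sub, dot_self, dot_self, huτ, hτu, hnτ]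
    ring
  · rw [nsq_smul, nsq_add, huτ, hnτ]
    nlinarith
  · rw [nsq_smul, nsq_smul, nsq_add, nsq_sub, huτ, hnτ]
    nlinarith
  · refine hpos _ ?_
    have h1 : z + (1 / 4 : ℝ) • (u + τ) - a = (1 / 4 : ℝ) • τ - (3 / 4 : ℝ) • u := by
      have h2 : z = a - u := by rw [hu]; abel
      rw [h2]
      module
    rw [h1, nsq_sub, nsq_smul, nsq_smul, smul_dot, dot_smul, hτu, hnτ, hnza]
    nlinarith
  · refine hpos _ ?_
    have h1 : z + (1 / 2 : ℝ) • (u - τ) - a = (-(1 / 2) : ℝ) • (u + τ) := by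
      have h2 : z = a - u := by rw [hu]; abel
      rw [h2]
      module
    rw [h1, nsq_smul, nsq_add, huτ, hnτ, hnza]
    nlinarith

end Pool.Agent.H82.CL
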