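import Pool.Agent.H82.CM.RealG

/-!
# PosQ: the operator is positive at a zero of `g` (about 150 lines)

At a zero `v` of `g ≥ 0`, if `g(v+p) > 0` and `g(v+q) > 0` for two orthogonal vectors with `0 < |p| < |q|`, then
`boltzQ γ b g v > 0`.

Proof. `w₀ = v+p+q`, `σ₀ = (p-q)/|p+q|` (`|p-q| = |p+q|`, `nsq σ₀ = 1`): `post v w₀ σ₀ = v+p`, `post' v w₀ σ₀ = v+q`,
`cosTh v w₀ σ₀ = (|q|²-|p|²)/|p+q|² ∈ (0,1)`, `v ≠ w₀`. All of these are continuous near `(w₀,σ₀)` (`continuous_post`,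
`continuous_post'`; `cosTh` is a quotient with denominator `len (v-w) ≠ 0` near `w₀`; `len (v-w) ^ γ` too), so there are open
sets `W ∋ w₀`, `S ∋ σ₀`, and `η > 0`, `ε₁ > 0` such that for `w ∈ W`, `σ ∈ S`: `η ≤ len (v-w)^γ * b₀ * (g (post' v w σ) * g (post v w σ))`
and `0 ≤ cosTh v w σ ≤ 1 - ε₁`. So for `0 < ε ≤ ε₁`:
`Gn γ b ε g v ≥ ∫⁻ w in W, ∫⁻ σ in S, ofReal η ∂(surf d) = ofReal η * surf d S * volume W =: G₀ > 0`. `volume W > 0` (open nonempty),
`surf d S > 0`: `surf` is the image of `toSphere`, which is positive on nonempty open sets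
(`toSphere.instIsOpenPosMeasure` in Mathlib.MeasureTheory.Constructions.HaarToSphere), the preimage of `S` contains `σ₀`. May be
`⊤`-free by taking bounded `W`, or just use `min`. `Ls γ b ε g v = 0` as `g v = 0` (unfold `Ls`). By `cut_eq` (CM/RealG.lean):
`boltzCut γ b ε g v = (Gn γ b ε g v).toReal ≥ G₀.toReal > 0` (`Gn ≠ ⊤`). Limit `ε → 0+` (`boltz_tendsto H hg v`, `ge_of_tendsto`).
-/

set_option autoImplicit false

open MeasureTheory Set Filter Topology Pool.Agent.H25.Kin Pool.Agent.H82.BK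
open scoped ENNReal

namespace Pool.Agent.H82.CL

variable {d : ℕ}

private lemma PosQ_surf_pos {S : Set (Vec d)} (hS : IsOpen S) {σ : Vec d} (hσ : σ ∈ S)
    (h1 : nsq σ = 1) : 0 < surf d S := by
  have hc : Continuous fun τ : Metric.sphere (0 : EuclideanSpace ℝ (Fin d)) 1 =>
    (WithLp.ofLp τ.1 : Vec d) := (PiLp.continuous_ofLp 2 _).comp continuous_subtype_val
  unfold surf
  rw [Measure.map_apply surf_meas hS.measurableSet]
  refine (hS.preimage hc).measure_pos _ ?_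
  have hn : ‖(WithLp.toLp 2 σ : EuclideanSpace ℝ (Fin d))‖ = 1 := by
    have h2 := len_ofLp (WithLp.toLp 2 σ : EuclideanSpace ℝ (Fin d))
    rw [← h2]
    show len σ = 1
    unfold len
    rw [h1, Real.sqrt_one]
  exact ⟨⟨WithLp.toLp 2 σ, by simpa using hn⟩, hσ⟩

private lemma PosQ_nbhd {γ : ℝ} {b₀ : ℝ} (hb₀ : 0 < b₀) {g : Vec d → ℝ} (hg : Continuous g)
    {v : Vec d} {p q : Vec d} (hpq : dot p q = 0) (hp : 0 < nsq p)
    (hlt : nsq p < nsq q) (hgp : 0 < g (v + p)) (hgq : 0 < g (v + q)) :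
    ∃ (W S : Set (Vec d)) (η ε₁ : ℝ) (σ₀ : Vec d), IsOpen W ∧ W.Nonempty ∧ IsOpen S ∧ σ₀ ∈ S ∧
      nsq σ₀ = 1 ∧ 0 < η ∧ 0 < ε₁ ∧ ∀ w ∈ W, ∀ σ ∈ S,
        η ≤ len (v - w) ^ γ * b₀ * (g (post' v w σ) * g (post v w σ)) ∧
        0 ≤ cosTh v w σ ∧ cosTh v w σ ≤ 1 - ε₁ := by
  have hnq : nsq (p + q) = nsq p + nsq q := by rw [nsq_add, hpq]; ring
  have hnq' : nsq (p - q) = nsq p + nsq q := by rw [nsq_sub, hpq]; ring
  have hpos : 0 < nsq (p + q) := by rw [hnq]; linarith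
  have hl : 0 < len (p + q) := by unfold len; exact Real.sqrt_pos.2 hpos
  set w₀ : Vec d := v + (p + q) with hw₀
  set σ₀ : Vec d := (len (p + q))⁻¹ • (p - q) with hσ₀
  have hσ1 : nsq σ₀ = 1 := by
    rw [hσ₀, nsq_smul, hnq', ← hnq, ← len_sq, inv_pow]
    exact inv_mul_cancel₀ (by positivity)
  have hvw : v - w₀ = -(p + q) := by rw [hw₀]; abel
  have hlen : len (v - w₀) = len (p + q) := by rw [hvw, len_neg]
  have hpost : post v w₀ σ₀ = v + p := by
    unfold post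
    rw [hlen, hσ₀, smul_smul, hw₀]
    have : len (p + q) / 2 * (len (p + q))⁻¹ = 1 / 2 := by field_simp
    rw [this]
    ext i
    simp
    ring
  have hpost' : post' v w₀ σ₀ = v + q := by
    unfold post'
    rw [hlen, hσ₀, smul_smul, hw₀]
    have : len (p + q) / 2 * (len (p + q))⁻¹ = 1 / 2 := by field_simp
    rw [this]
    ext i
    simp
    ring
  have hdot : dot (p - q) (p + q) = nsq p - nsq q := by
    rw [dot_comm, dot_sub, dot_comm (p + q) p, dot_comm (p + q) q, dot_add, dot_add, dot_self,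
      dot_self, hpq, dot_comm q p, hpq]
    ring
  have hcos : cosTh v w₀ σ₀ = (nsq q - nsq p) / (nsq p + nsq q) := by
    unfold cosTh
    rw [hlen, hvw, dot_neg, hσ₀, smul_dot, hdot, ← hnq, ← len_sq (p + q)]
    field_simp
    ring
  have hc0 : 0 < cosTh v w₀ σ₀ := by
    rw [hcos]
    exact div_pos (by linarith) (by linarith)
  have hc1 : cosTh v w₀ σ₀ < 1 := by
    rw [hcos, div_lt_one (by linarith)]
    linarith
  -- continuity at the point
  have k1 : ContinuousAt (fun x : Vec d × Vec d => len (v - x.1)) (w₀, σ₀) :=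
    (continuous_len.comp (continuous_const.sub continuous_fst)).continuousAt
  have k1' : len (v - w₀) ≠ 0 := by rw [hlen]; exact hl.ne'
  have k2 : ContinuousAt (fun x : Vec d × Vec d => len (v - x.1) ^ γ) (w₀, σ₀) :=
    k1.rpow_const (Or.inl k1')
  have k3 : Continuous fun x : Vec d × Vec d => g (post v x.1 x.2) :=
    hg.comp (continuous_post.comp
      (continuous_const.prodMk (continuous_fst.prodMk continuous_snd)))
  have k4 : Continuous fun x : Vec d × Vec d => g (post' v x.1 x.2) :=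
    hg.comp (continuous_post'.comp
      (continuous_const.prodMk (continuous_fst.prodMk continuous_snd)))
  have k5 : ContinuousAt (fun x : Vec d × Vec d => len (v - x.1) ^ γ * b₀ *
      (g (post' v x.1 x.2) * g (post v x.1 x.2))) (w₀, σ₀) :=
    (k2.mul continuousAt_const).mul (k4.continuousAt.mul k3.continuousAt)
  have k6 : ContinuousAt (fun x : Vec d × Vec d => cosTh v x.1 x.2) (w₀, σ₀) := by
    unfold cosTh
    refine ContinuousAt.div ?_ k1 k1'
    exact (continuous_dot.comp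
      (continuous_snd.prodMk (continuous_const.sub continuous_fst))).continuousAt
  have hF : 0 < len (v - w₀) ^ γ * b₀ * (g (post' v w₀ σ₀) * g (post v w₀ σ₀)) := by
    rw [hpost, hpost', hlen]
    have := Real.rpow_pos_of_pos hl γ
    positivity
  set F₀ := len (v - w₀) ^ γ * b₀ * (g (post' v w₀ σ₀) * g (post v w₀ σ₀)) with hF₀
  have e1 : ∀ᶠ x in 𝓝 (w₀, σ₀), F₀ / 2 < len (v - x.1) ^ γ * b₀ *
      (g (post' v x.1 x.2) * g (post v x.1 x.2)) :=
    k5.eventually (lt_mem_nhds (by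
      show F₀ / 2 < len (v - w₀) ^ γ * b₀ * (g (post' v w₀ σ₀) * g (post v w₀ σ₀))
      rw [← hF₀]
      linarith))
  have e2 : ∀ᶠ x in 𝓝 (w₀, σ₀), 0 < cosTh v x.1 x.2 := k6.eventually (lt_mem_nhds hc0)
  have e3 : ∀ᶠ x in 𝓝 (w₀, σ₀), cosTh v x.1 x.2 < 1 - (1 - cosTh v w₀ σ₀) / 2 :=
    k6.eventually (gt_mem_nhds (by
      show cosTh v w₀ σ₀ < 1 - (1 - cosTh v w₀ σ₀) / 2
      linarith))
  have e4 := (e1.and (e2.and e3))
  obtain ⟨W, S, hW, hwW, hS, hσS, hWS⟩ := mem_nhds_prod_iff'.1 e4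
  refine ⟨W, S, F₀ / 2, (1 - cosTh v w₀ σ₀) / 2, σ₀, hW, ⟨w₀, hwW⟩, hS, hσS, hσ1, by linarith,
    by linarith, fun w hw σ hσ => ?_⟩
  have h := hWS (mk_mem_prod hw hσ)
  obtain ⟨a, b', c⟩ := h
  exact ⟨a.le, b'.le, c.le⟩

theorem pos_Q {γ s : ℝ} {b : ℝ → ℝ} {C Ca : ℝ} (H : Hyp d γ s b C Ca) {b₀ : ℝ} (hb₀ : 0 < b₀)
    (hb : ∀ x, 0 ≤ x → x < 1 → b₀ ≤ b x) {g : Vec d → ℝ} (hg : Nice g) (hg0 : ∀ u, 0 ≤ g u)
    {v : Vec d} (hv : g v = 0) {p q : Vec d} (hpq : dot p q = 0) (hp : 0 < nsq p)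
    (hlt : nsq p < nsq q) (hgp : 0 < g (v + p)) (hgq : 0 < g (v + q)) :
    0 < boltzQ γ b g v := by
  obtain ⟨W, S, η, ε₁, σ₀, hW, hWn, hS, hσS, hσ1, hη, hε₁, hWS⟩ :=
    PosQ_nbhd (γ := γ) hb₀ hg.cont hpq hp hlt hgp hgq
  have hSp := PosQ_surf_pos hS hσS hσ1
  have hWp : 0 < (volume : Measure (Vec d)) W := hW.measure_pos _ hWn
  set G₀ : ℝ≥0∞ := ENNReal.ofReal η * surf d S * volume W with hG₀
  have hG0 : G₀ ≠ 0 := by
    rw [hG₀]
    exact mul_ne_zero (mul_ne_zero (ENNReal.ofReal_pos.2 hη).ne' hSp.ne') hWp.ne'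
  have key : ∀ ε, 0 < ε → ε ≤ ε₁ → G₀ ≤ Gn γ b ε g v := by
    intro ε hε hle
    unfold Gn
    calc G₀ = ∫⁻ w in W, ∫⁻ σ in S, ENNReal.ofReal η ∂(surf d) := by
          rw [setLIntegral_const, setLIntegral_const]
      _ ≤ ∫⁻ w in W, ∫⁻ σ in S, ENNReal.ofReal
            (kerB γ b ε v w σ * (g (post' v w σ) * g (post v w σ))) ∂(surf d) := by
          refine setLIntegral_mono_ae' hW.measurableSet (Eventually.of_forall fun w hw => ?_)
          refine setLIntegral_mono_ae' hS.measurableSet (Eventually.of_forall fun σ hσ => ?_)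
          refine ENNReal.ofReal_le_ofReal ?_
          obtain ⟨h1, h2, h3⟩ := hWS w hw σ hσ
          refine h1.trans ?_
          refine mul_le_mul_of_nonneg_right ?_ (mul_nonneg (hg0 _) (hg0 _))
          unfold kerB
          rw [if_pos (by linarith)]
          exact mul_le_mul_of_nonneg_left (hb _ h2 (by linarith))
            (Real.rpow_nonneg (len_nonneg _) _)
      _ ≤ ∫⁻ w in W, ∫⁻ σ, ENNReal.ofReal
            (kerB γ b ε v w σ * (g (post' v w σ) * g (post v w σ))) ∂(surf d) :=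
          lintegral_mono fun w => setLIntegral_le_lintegral _ _
      _ ≤ _ := setLIntegral_le_lintegral _ _
  have hGt : G₀ ≠ ⊤ := ne_top_of_le_ne_top (Pool.Agent.H82.CM.cut_eq H hg hg0 hε₁ v).1
    (key ε₁ hε₁ le_rfl)
  have hpos : 0 < G₀.toReal := ENNReal.toReal_pos hG0 hGt
  refine hpos.trans_le (ge_of_tendsto (boltz_tendsto H hg v) ?_)
  filter_upwards [Ioc_mem_nhdsGT hε₁] with ε hε
  obtain ⟨t1, t2, e⟩ := Pool.Agent.H82.CM.cut_eq H hg hg0 hε.1 v
  have hL : Ls γ b ε g v = 0 := by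
    unfold Ls
    rw [hv]
    simp
  rw [e, hL, ENNReal.toReal_zero, sub_zero]
  exact ENNReal.toReal_mono t1 (key ε hε.1 hε.2)

end Pool.Agent.H82.CL
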