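import Pool.Agent.H82.CM.LowK
import Pool.Agent.H82.CL.PosQ
import Pool.Agent.H82.CL.Orth

/-!
# Zero: at fixed `(t,x)`, `0 < t < T`, the solution is positive everywhere or zero everywhere in `v`
-/

set_option autoImplicit false

open MeasureTheory Set Filter Topology Pool.Agent.H25.Kin Pool.Agent.H82.BK Pool.Agent.H82.CM
open scoped ENNReal

namespace Pool.Agent.H82.CL

variable {d : ℕ}

private lemma zero_low {b : ℝ → ℝ} {cb β : ℝ} (hβ : 0 ≤ β) (h : LowB b cb β) :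
    ∀ x, 0 ≤ x → x < 1 → cb ≤ b x := by
  intro x hx hx1
  refine le_trans ?_ (h.2 x hx hx1)
  have h1 : 1 ≤ (1 - x) ^ (-β) :=
    Real.one_le_rpow_of_pos_of_le_one_of_nonpos (by linarith) (by linarith) (by linarith)
  nlinarith [h.1]

/-- the operator vanishes at an interior zero -/
private lemma zero_Q {T : ℝ} {Q f : ℝ → Vec d → Vec d → ℝ} (hf : IsClassicalSol T Q f) {t : ℝ}
    (ht : t ∈ Ioo 0 T) {x v : Vec d} (hz : f t x v = 0) : Q t x v = 0 := by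
  have hmin : IsLocalMin (unc f) (t, x, v) := by
    have hopen : (Ioo 0 T ×ˢ (univ : Set (Vec d × Vec d))) ∈ 𝓝 ((t, x, v) : ℝ × Vec d × Vec d) :=
      (isOpen_Ioo.prod isOpen_univ).mem_nhds ⟨ht, mem_univ _⟩
    filter_upwards [hopen] with q hq
    have h1 : unc f (t, x, v) = 0 := hz
    rw [h1]
    exact hf.nonneg q.1 ⟨hq.1.1.le, hq.1.2⟩ q.2.1 q.2.2
  rw [← hf.solves t ht x v]
  unfold transport
  rw [hmin.fderiv_eq_zero]
  rfl

theorem zero_or_pos {γ s : ℝ} {b : ℝ → ℝ} {C Ca cb : ℝ} (HL : HypL d γ s b C Ca cb) {T : ℝ}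
    {f : ℝ → Vec d → Vec d → ℝ} (hf : IsBoltzmannSol γ b T f) {t : ℝ} (ht : t ∈ Ioo 0 T)
    (x : Vec d) (hne : ∃ u, 0 < f t x u) : ∀ u, 0 < f t x u := by
  have H := HL.H
  have hn := IsClassicalSol.nice hf ht x
  have hnn : ∀ u, 0 ≤ f t x u := hf.nonneg t ⟨ht.1.le, ht.2⟩ x
  refine all_pos_of_orth H.hd hn.cont hnn ?_ hne
  intro v p q hv hpq hp hlt hgp hgq
  have h1 := pos_Q H HL.lo.1 (zero_low H.β0 HL.lo) hn hnn hv hpq hp hlt hgp hgq
  have h2 := zero_Q hf ht hv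
  exact absurd h2 h1.ne'

end Pool.Agent.H82.CL
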