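import Pool.Agent.H82.CL.StepL
import Pool.Agent.H82.CL.Zero
import Pool.Agent.H82.CL.Unif

/-!
# Fin: the mass density stays bounded below
-/

set_option autoImplicit false

open MeasureTheory Set Filter Topology Pool.Agent.H25.Kin Pool.Agent.H82.BK Pool.Agent.H82.CM
open scoped ENNReal

namespace Pool.Agent.H82.CL

variable {d : ℕ}

/-- the mass density and the pointwise positivity from the barrier, on a short time interval -/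
private lemma fin_short {γ s : ℝ} {b : ℝ → ℝ} {C Ca cb : ℝ} (HL : HypL d γ s b C Ca cb) {T : ℝ}
    {f : ℝ → Vec d → Vec d → ℝ} (hf : IsBoltzmannSol γ b T f) (hup : RapidUpTo T f) {V r : ℝ}
    (hV : 0 ≤ V) (hr : 0 < r) (hr1 : r ≤ 1) :
    ∃ τ : ℝ, 0 < τ ∧ τ ≤ 1 ∧ ∀ t₀ ∈ Ico 0 T, ∀ c : ℝ, 0 < c →
      (∀ x, ∃ v₀, nsq v₀ ≤ V ^ 2 ∧ ∀ y w, nsq (y - x) + nsq (w - v₀) ≤ r ^ 2 → c ≤ f t₀ y w) →
      ∃ m : ℝ, 0 < m ∧ ∀ t ∈ Icc t₀ (t₀ + τ), t < T → ∀ x, m ≤ ∫ v, f t x v := by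
  sorry

theorem mass_lower {γ s : ℝ} (hd : 2 ≤ d) (hs : s ∈ Ioo (0 : ℝ) 1) (h0 : 0 ≤ γ + 2 * s)
    (h2 : γ + 2 * s ≤ 2) {b : ℝ → ℝ} (hb : IsKernel d s b) {T : ℝ}
    {f : ℝ → Vec d → Vec d → ℝ} (hf : IsBoltzmannSol γ b T f) (hup : RapidUpTo T f)
    (hm : ∀ x, 0 < ∫ v, f 0 x v) :
    ∃ m : ℝ, 0 < m ∧ ∀ t ∈ Ico 0 T, ∀ x, m ≤ ∫ v, f t x v := by
  sorry

end Pool.Agent.H82.CL
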