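import Pool.Agent.H82.BK.Fin
import Pool.Agent.H82.CM.LowK
import Pool.Agent.H82.CL.LowQ
import Pool.Agent.H82.CL.Bar

/-!
# StepL: the barrier from below for solutions with rapid decay (about 130 lines)

Proof. `K` from `low_Q HL.H`. MOMENT: `∃ M, 0 ≤ M ∧ ∀ t ∈ Ico 0 T, ∀ x v, nsq (v - v₀) ≤ r² ≤ 1`, `nsq v₀ ≤ V²`:
`∫ f t x z * len (v - z) ^ (γ + 2s) ≤ M`, because `len (v-z)^(γ+2s) ≤ 1 + nsq (v-z) ≤ 1 + 2 nsq v + 2 nsq z` (`0 ≤ γ+2s ≤ 2`) `≤ C' (1+‖z‖)²` with `C'`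
depending on `V, d`, and `f ≤ C (1+‖z‖)^(-(d+3))` (`hup (d+3)`), `integrable_wt`; compare `RapidUpTo.hydro` in `BK/Fin.lean`.
`Λ := 4 K M / r² + 1`. For `t ∈ [t₀, t₀+1]`, `t < T`: apply `local_lower` with `t₁ = t`. Its hypothesis `hQ`: `t' > t₀ ≥ 0` so `t' ∈ (0,T)`,
`IsClassicalSol.nice hf _ x`, `low_Q` with `c' = 2c/r² ≥ c` gives `boltzQ ≥ -(K * (2c/r²) * M) > -(c Λ)`.
-/

set_option autoImplicit false

open MeasureTheory Set Filter Topology Pool.Agent.H25.Kin Pool.Agent.H82.BK Pool.Agent.H82.CM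
open scoped ENNReal

namespace Pool.Agent.H82.CL

variable {d : ℕ}

private lemma stepL_pow {a e : ℝ} (ha : 0 ≤ a) (h0 : 0 ≤ e) (h2 : e ≤ 2) : a ^ e ≤ 1 + a ^ 2 := by
  rcases le_or_gt a 1 with h | h
  · have := Real.rpow_le_one ha h h0
    nlinarith [sq_nonneg a]
  · have h3 : a ^ e ≤ a ^ (2 : ℝ) := Real.rpow_le_rpow_of_exponent_le h.le h2
    rw [Real.rpow_two] at h3
    linarith

private lemma stepL_moment {e : ℝ} (he0 : 0 ≤ e) (he2 : e ≤ 2) {T : ℝ}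
    {f : ℝ → Vec d → Vec d → ℝ} (hf0 : ∀ t ∈ Ico 0 T, ∀ x v, 0 ≤ f t x v) (hup : RapidUpTo T f) (V : ℝ) :
    ∃ M : ℝ, 0 ≤ M ∧ ∀ t ∈ Ico 0 T, ∀ x v v₀ : Vec d, nsq v₀ ≤ V ^ 2 → nsq (v - v₀) ≤ 1 →
      ∫ z, f t x z * len (v - z) ^ e ≤ M := by
  obtain ⟨C, hC⟩ := hup (d + 3)
  have hw : Integrable (fun v : Vec d => ((1 + ‖v‖) ^ (d + 1))⁻¹) := integrable_wt
  set W := ∫ v : Vec d, ((1 + ‖v‖) ^ (d + 1))⁻¹ with hW
  have hW0 : 0 ≤ W := integral_nonneg fun v => inv_nonneg.2 (pow_nonneg (w_pos v).le _)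
  set A : ℝ := (5 + 4 * V ^ 2) * ((d + 1) * |C|) with hA
  have hA0 : 0 ≤ A := by positivity
  refine ⟨A * W, mul_nonneg hA0 hW0, fun t ht x v v₀ h0 h1 => ?_⟩
  rw [hW, ← integral_const_mul]
  refine integral_mono_of_nonneg (Eventually.of_forall fun z => mul_nonneg (hf0 t ht x z)
    (Real.rpow_nonneg (len_nonneg _) _)) (hw.const_mul A) (Eventually.of_forall fun z => ?_)
  have hz := hC t ht x z
  have hfz := hf0 t ht x z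
  have hn := nsq_par v z
  have hn2 := nsq_par (v - v₀) v₀
  rw [sub_add_cancel] at hn2
  have e1 := sq_nonneg' (v + z)
  have e2 := sq_nonneg' (v - v₀ - v₀)
  have e3 := sq_nonneg' z
  have hl : len (v - z) ^ e ≤ (5 + 4 * V ^ 2) * (1 + nsq z) := by
    refine (stepL_pow (len_nonneg _) he0 he2).trans ?_
    rw [len_sq]
    nlinarith [sq_nonneg V]
  have hl2 : len (v - z) ^ e ≤ (5 + 4 * V ^ 2) * ((d + 1) * (1 + ‖z‖) ^ 2) := by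
    refine hl.trans (mul_le_mul_of_nonneg_left (one_add_nsq_le z) (by positivity))
  have hwp := w_pos z
  show f t x z * len (v - z) ^ e ≤ A * ((1 + ‖z‖) ^ (d + 1))⁻¹
  rw [← div_eq_mul_inv, le_div_iff₀ (pow_pos hwp _)]
  calc f t x z * len (v - z) ^ e * (1 + ‖z‖) ^ (d + 1)
      ≤ f t x z * ((5 + 4 * V ^ 2) * ((d + 1) * (1 + ‖z‖) ^ 2)) * (1 + ‖z‖) ^ (d + 1) := by gcongr
    _ = (5 + 4 * V ^ 2) * ((d + 1) * ((1 + ‖z‖) ^ (d + 3) * f t x z)) := by ring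
    _ ≤ (5 + 4 * V ^ 2) * ((d + 1) * |C|) := by
        gcongr
        exact hz.trans (le_abs_self C)

theorem step_low {γ s : ℝ} {b : ℝ → ℝ} {C Ca cb : ℝ} (HL : HypL d γ s b C Ca cb) {T : ℝ}
    {f : ℝ → Vec d → Vec d → ℝ} (hf : IsBoltzmannSol γ b T f) (hup : RapidUpTo T f) {V r : ℝ}
    (hV : 0 ≤ V) (hr : 0 < r) (hr1 : r ≤ 1) :
    ∃ Λ : ℝ, 0 < Λ ∧ ∀ t₀ ∈ Ico 0 T, ∀ x₀ v₀ : Vec d, nsq v₀ ≤ V ^ 2 → ∀ c : ℝ, 0 < c →
      (∀ y w, nsq (y - x₀) + nsq (w - v₀) ≤ r ^ 2 → c ≤ f t₀ y w) →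
      ∀ t ∈ Icc t₀ (t₀ + 1), t < T → ∀ x v,
        c * (1 - nsq (v - v₀) / r ^ 2 - nsq (x - x₀ - (t - t₀) • v) / r ^ 2 - Λ * (t - t₀)) ≤
          f t x v := by
  have H := HL.H
  have he0 : 0 ≤ γ + 2 * s := H.h0
  have he2 : γ + 2 * s ≤ 2 := H.h2
  obtain ⟨K, hK0, hK⟩ := low_Q H
  obtain ⟨M, hM0, hM⟩ := stepL_moment he0 he2 hf.nonneg hup V
  have hr2 : 0 < r ^ 2 := by positivity
  have hr21 : r ^ 2 ≤ 1 := by nlinarith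
  refine ⟨4 * K * M / r ^ 2 + 1, by positivity, fun t₀ ht₀ x₀ v₀ hv₀ c hc hinit t ht htT => ?_⟩
  refine local_lower hf ht₀.1 ht.1 htT ht.2 hc hr (by positivity) hinit ?_ t ⟨ht.1, le_rfl⟩
  intro u hu x v hv hfc hsec
  have hu' : u ∈ Ioo 0 T := ⟨ht₀.1.trans_lt hu.1, hu.2.trans_lt htT⟩
  have hn := IsClassicalSol.nice hf hu' x
  have hc2 : c ≤ 2 * c / r ^ 2 := by
    rw [le_div_iff₀ hr2]
    nlinarith
  have h1 := hK (f u x) hn (hf.nonneg u ⟨hu'.1.le, hu'.2⟩ x) v (2 * c / r ^ 2) (by positivity)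
    (hfc.trans hc2) hsec
  have h2 := hM u ⟨hu'.1.le, hu'.2⟩ x v v₀ hv₀ (hv.trans hr21)
  have h3 : K * (2 * c / r ^ 2) * ∫ z, f u x z * len (v - z) ^ (γ + 2 * s) ≤
      K * (2 * c / r ^ 2) * M := mul_le_mul_of_nonneg_left h2 (by positivity)
  have h4 : c * (4 * K * M / r ^ 2 + 1) = K * (2 * c / r ^ 2) * M + K * (2 * c / r ^ 2) * M + c := by
    ring
  have h5 : 0 ≤ K * (2 * c / r ^ 2) * M := by positivity
  show -(c * (4 * K * M / r ^ 2 + 1)) < boltzQ γ b (f u x) v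
  linarith

end Pool.Agent.H82.CL
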